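import Pool.Agent.K1H35.SH.Stm2

/-!
Pieces EUP and QDB of the project SQ (MP_0fd30f_pr): few edges inside small sets.
-/

set_option autoImplicit false

namespace Pool.Agent.K1H67.SQ

open Finset
open Pool.Agent.K1H35.SH

variable {n : ℕ}

theorem mem_nb (G : SimpleGraph (Fin n)) (v x : Fin n) : x ∈ nb G v ↔ G.Adj v x := by
  simp [nb]

theorem mem_reg (G : SimpleGraph (Fin n)) (d : ℕ) :
    G ∈ reg n d ↔ ∀ v, (nb G v).card = d := by
  simp [reg]

/-- ordered adjacent pairs with first entry in `S` -/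
noncomputable def PW (G : SimpleGraph (Fin n)) (S : Finset (Fin n)) : Finset (Fin n × Fin n) := by
  classical exact (S ×ˢ univ).filter (fun q => G.Adj q.1 q.2)

/-- ordered adjacent pairs with second entry in `S` -/
noncomputable def PW' (G : SimpleGraph (Fin n)) (S : Finset (Fin n)) : Finset (Fin n × Fin n) := by
  classical exact (univ ×ˢ S).filter (fun q => G.Adj q.1 q.2)

theorem PW_card (d : ℕ) (G : SimpleGraph (Fin n)) (hG : G ∈ reg n d) (S : Finset (Fin n)) :
    (PW G S).card = S.card * d := by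
  classical
  unfold PW
  rw [Finset.card_filter, Finset.sum_product]
  rw [Finset.sum_congr rfl (g := fun _ => d)]
  · simp
  · intro a _
    rw [← (mem_reg G d).1 hG a]
    unfold nb
    rw [Finset.card_filter]

theorem PW'_card (d : ℕ) (G : SimpleGraph (Fin n)) (hG : G ∈ reg n d) (S : Finset (Fin n)) :
    (PW' G S).card = S.card * d := by
  classical
  unfold PW'
  rw [Finset.card_filter, Finset.sum_product_right]
  rw [Finset.sum_congr rfl (g := fun _ => d)]
  · simp
  · intro a _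
    rw [← (mem_reg G d).1 hG a]
    unfold nb
    rw [Finset.card_filter]
    exact Finset.sum_congr rfl fun b _ => if_congr (G.adj_comm _ _) rfl rfl

/-- ordered adjacent pairs inside `U` -/
noncomputable def IN (G : SimpleGraph (Fin n)) (U : Finset (Fin n)) : Finset (Fin n × Fin n) := by
  classical exact univ.filter (fun p : Fin n × Fin n => p.1 ∈ U ∧ p.2 ∈ U ∧ G.Adj p.1 p.2)

theorem E2_eq (G : SimpleGraph (Fin n)) (U : Finset (Fin n)) : E2 G U = (IN G U).card := rfl

/-- the second pairs for a given first pair -/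
noncomputable def XX (G : SimpleGraph (Fin n)) (U : Finset (Fin n)) (p : Fin n × Fin n) :
    Finset (Fin n × Fin n) := by
  classical exact univ.filter (fun q : Fin n × Fin n => q.1 ∉ U ∧ q.2 ∉ U ∧ G.Adj q.1 q.2 ∧
    ¬ G.Adj p.1 q.1 ∧ ¬ G.Adj p.2 q.2)

theorem XX_card (d : ℕ) (G : SimpleGraph (Fin n)) (hG : G ∈ reg n d) (U : Finset (Fin n))
    (p : Fin n × Fin n) : n * d - 2 * (U.card * d) - 2 * (d * d) ≤ (XX G U p).card := by
  classical
  have h1 : PW G univ ⊆ XX G U p ∪ (PW G U ∪ (PW' G U ∪ (PW G (nb G p.1) ∪ PW' G (nb G p.2)))) := by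
    intro q hq
    simp only [PW, Finset.mem_filter, Finset.mem_product, Finset.mem_univ, true_and] at hq
    simp only [Finset.mem_union, XX, PW, PW', Finset.mem_filter, Finset.mem_product,
      Finset.mem_univ, true_and, and_true, mem_nb]
    by_cases a1 : q.1 ∈ U
    · tauto
    by_cases a2 : q.2 ∈ U
    · tauto
    by_cases a3 : G.Adj p.1 q.1
    · tauto
    by_cases a4 : G.Adj p.2 q.2
    · tauto
    tauto
  have h2 := Finset.card_le_card h1
  have h3 := Finset.card_union_le (XX G U p)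
    (PW G U ∪ (PW' G U ∪ (PW G (nb G p.1) ∪ PW' G (nb G p.2))))
  have h4 := Finset.card_union_le (PW G U) (PW' G U ∪ (PW G (nb G p.1) ∪ PW' G (nb G p.2)))
  have h5 := Finset.card_union_le (PW' G U) (PW G (nb G p.1) ∪ PW' G (nb G p.2))
  have h6 := Finset.card_union_le (PW G (nb G p.1)) (PW' G (nb G p.2))
  rw [PW_card d G hG] at h2 h4 h6
  rw [PW'_card d G hG] at h5 h6
  rw [(mem_reg G d).1 hG] at h6
  rw [(mem_reg G d).1 hG] at h6
  rw [Finset.card_univ, Fintype.card_fin] at h2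
  omega

/-- forward tuples -/
noncomputable def FF (G : SimpleGraph (Fin n)) (U : Finset (Fin n)) : Finset (Tup n) := by
  classical exact univ.filter (fun t => (t.1 ∈ U ∧ t.2.1 ∈ U ∧ G.Adj t.1 t.2.1) ∧
    (t.2.2.1 ∉ U ∧ t.2.2.2 ∉ U ∧ G.Adj t.2.2.1 t.2.2.2 ∧ ¬ G.Adj t.1 t.2.2.1 ∧
      ¬ G.Adj t.2.1 t.2.2.2))

/-- backward tuples -/
noncomputable def BB (G : SimpleGraph (Fin n)) (U : Finset (Fin n)) : Finset (Tup n) := by
  classical exact univ.filter (fun t => (t.1 ∈ U ∧ G.Adj t.1 t.2.2.1) ∧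
    (t.2.1 ∈ U ∧ G.Adj t.2.1 t.2.2.2))

theorem FF_card (d : ℕ) (G : SimpleGraph (Fin n)) (hG : G ∈ reg n d) (U : Finset (Fin n)) :
    E2 G U * (n * d - 2 * (U.card * d) - 2 * (d * d)) ≤ (FF G U).card := by
  classical
  have h1 : E2 G U * (n * d - 2 * (U.card * d) - 2 * (d * d)) ≤
      ((IN G U).sigma (fun p => XX G U p)).card := by
    rw [Finset.card_sigma, E2_eq, ← smul_eq_mul]
    exact Finset.card_nsmul_le_sum _ _ _ fun p _ => XX_card d G hG U p
  refine h1.trans ?_
  apply Finset.card_le_card_of_injOn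
    (fun s : (_ : Fin n × Fin n) × (Fin n × Fin n) => ((s.1.1, s.1.2, s.2.1, s.2.2) : Tup n))
  · rintro ⟨⟨a, c⟩, ⟨b, x⟩⟩ hs
    simp only [IN, XX, Finset.coe_sigma, Set.mem_sigma_iff, Finset.mem_coe, Finset.mem_filter,
      Finset.mem_univ, true_and] at hs
    simp only [FF, Finset.coe_filter, Finset.mem_univ, true_and, Set.mem_ofPred_eq]
    exact hs
  · rintro ⟨⟨a, c⟩, ⟨b, x⟩⟩ _ ⟨⟨a', c'⟩, ⟨b', x'⟩⟩ _ h
    simp only [Prod.mk.injEq] at h
    obtain ⟨rfl, rfl, rfl, rfl⟩ := h
    rfl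

theorem BB_card (d : ℕ) (G : SimpleGraph (Fin n)) (hG : G ∈ reg n d) (U : Finset (Fin n)) :
    (BB G U).card ≤ (U.card * d) * (U.card * d) := by
  classical
  rw [← PW_card d G hG U, ← Finset.card_product]
  apply Finset.card_le_card_of_injOn
    (fun t : Tup n => (((t.1, t.2.2.1), (t.2.1, t.2.2.2)) : (Fin n × Fin n) × (Fin n × Fin n)))
  · rintro ⟨a, c, b, x⟩ ht
    simp only [BB, Finset.coe_filter, Finset.mem_univ, true_and, Set.mem_ofPred_eq] at ht
    simp only [Finset.coe_product, Set.mem_prod, Finset.mem_coe, PW, Finset.mem_filter,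
      Finset.mem_product, Finset.mem_univ, and_true]
    exact ht
  · rintro ⟨a, c, b, x⟩ _ ⟨a', c', b', x'⟩ _ h
    simp only [Prod.mk.injEq] at h
    obtain ⟨⟨rfl, rfl⟩, rfl, rfl⟩ := h
    rfl

theorem E2_sw (hSW : S_SW) (G : SimpleGraph (Fin n)) (U : Finset (Fin n)) (a c b x : Fin n)
    (h1 : a ∈ U ∧ c ∈ U ∧ G.Adj a c)
    (h2 : b ∉ U ∧ x ∉ U ∧ G.Adj b x ∧ ¬ G.Adj a b ∧ ¬ G.Adj c x) :
    (∀ d, G ∈ reg n d → sw (a, c, b, x) G ∈ reg n d) ∧
      E2 (sw (a, c, b, x) G) U + 2 = E2 G U ∧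
      (sw (a, c, b, x) G).Adj a b ∧ (sw (a, c, b, x) G).Adj c x := by
  classical
  obtain ⟨haU, hcU, hac⟩ := h1
  obtain ⟨hbU, hxU, hbx, hab, hcx⟩ := h2
  have hab' : a ≠ b := fun h => hbU (h ▸ haU)
  have hcx' : c ≠ x := fun h => hxU (h ▸ hcU)
  have hval : Val G (a, c, b, x) := ⟨hac, hbx, hab, hab', hcx, hcx'⟩
  obtain ⟨hadj, _, _, _, _, _, hreg⟩ := hSW n G a c b x hval
  refine ⟨hreg, ?_, ?_, ?_⟩
  · have hne : a ≠ c := hac.ne
    have e1 : IN G U = insert (a, c) (insert (c, a) (IN (sw (a, c, b, x) G) U)) := by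
      ext ⟨y, z⟩
      simp only [IN, Finset.mem_insert, Finset.mem_filter, Finset.mem_univ, true_and,
        Prod.mk.injEq, hadj, Sym2.eq_iff, ne_eq]
      constructor
      · rintro ⟨hy, hz, hyz⟩
        by_cases g1 : y = a ∧ z = c
        · exact Or.inl g1
        by_cases g2 : y = c ∧ z = a
        · exact Or.inr (Or.inl g2)
        refine Or.inr (Or.inr ⟨hy, hz, Or.inr ⟨hyz, ?_, ?_⟩⟩)
        · rintro (g | g)
          · exact g1 g
          · exact g2 g
        · rintro (g | g)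
          · exact hbU (g.1 ▸ hy)
          · exact hxU (g.1 ▸ hy)
      · rintro (g | g | ⟨hy, hz, (g | g) | g⟩)
        · obtain ⟨rfl, rfl⟩ := g
          exact ⟨haU, hcU, hac⟩
        · obtain ⟨rfl, rfl⟩ := g
          exact ⟨hcU, haU, hac.symm⟩
        · rcases g with g | g
          · exact absurd (g.2 ▸ hz) hbU
          · exact absurd (g.1 ▸ hy) hbU
        · rcases g with g | g
          · exact absurd (g.2 ▸ hz) hxU
          · exact absurd (g.1 ▸ hy) hxU
        · exact ⟨hy, hz, g.1⟩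
    have mem_IN : ∀ (G' : SimpleGraph (Fin n)) (y z : Fin n), (y, z) ∈ IN G' U → G'.Adj y z := by
      intro G' y z h
      simp only [IN, Finset.mem_filter, Finset.mem_univ, true_and] at h
      exact h.2.2
    have m1 : (c, a) ∉ IN (sw (a, c, b, x) G) U := by
      intro h
      rcases (hadj c a).1 (mem_IN _ _ _ h) with (g | g) | g
      · rcases Sym2.eq_iff.1 g with g | g
        · exact hne g.1.symm
        · exact hbU (g.1 ▸ hcU)
      · rcases Sym2.eq_iff.1 g with g | g
        · exact hxU (g.2 ▸ haU)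
        · exact hcx' g.1
      · exact g.2.1 Sym2.eq_swap
    have m2 : (a, c) ∉ insert (c, a) (IN (sw (a, c, b, x) G) U) := by
      rw [Finset.mem_insert]
      rintro (g | h)
      · exact hne (Prod.mk.inj g).1
      rcases (hadj a c).1 (mem_IN _ _ _ h) with (g | g) | g
      · rcases Sym2.eq_iff.1 g with g | g
        · exact hbU (g.2 ▸ hcU)
        · exact hab' g.1
      · rcases Sym2.eq_iff.1 g with g | g
        · exact hne g.1
        · exact hxU (g.1 ▸ haU)
      · exact g.2.1 rfl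
    rw [E2_eq, E2_eq, e1, Finset.card_insert_of_notMem m2, Finset.card_insert_of_notMem m1]
  · rw [hadj]
    exact Or.inl (Or.inl rfl)
  · rw [hadj]
    exact Or.inl (Or.inr rfl)

theorem t_EUP (hSW : S_SW) (hDC : S_DC) : S_EUP := by
  classical
  intro n d e U hn hd hU he
  have key := hDC n d (fun G => E2 G U = 2 * (e + 1)) (fun G => E2 G U = 2 * e)
    (fun G => FF G U) (fun G => BB G U)
    ((2 * (e + 1)) * (n * d - 2 * (U.card * d) - 2 * (d * d))) ((U.card * d) * (U.card * d))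
    (by
      rintro G hG hP ⟨a, c, b, x⟩ ht
      simp only [FF, Finset.mem_filter, Finset.mem_univ, true_and] at ht
      obtain ⟨h1, h2, h3, h4⟩ := E2_sw hSW G U a c b x ht.1 ht.2
      refine ⟨h1 d hG, ?_, ?_⟩
      · change E2 G U = 2 * (e + 1) at hP
        change E2 (sw (a, c, b, x) G) U = 2 * e
        omega
      · simp only [BB, Finset.mem_filter, Finset.mem_univ, true_and]
        exact ⟨⟨ht.1.1, h3⟩, ht.1.2.1, h4⟩)
    (fun G hG hP => by
      change E2 G U = 2 * (e + 1) at hP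
      rw [← hP]
      exact FF_card d G hG U)
    (fun G hG _ => BB_card d G hG U)
  set P := cnt n d (fun G => E2 G U = 2 * (e + 1)) with hP
  set Q := cnt n d (fun G => E2 G U = 2 * e) with hQ
  have a1 : n * d ≤ 2 * (n * d - 2 * (U.card * d) - 2 * (d * d)) := by
    have b1 : 8 * (U.card * d) ≤ n * d := by
      calc 8 * (U.card * d) = (8 * U.card) * d := by ring
        _ ≤ n * d := by gcongr
    have b2 : 64 * (d * d) ≤ n * d := by
      calc 64 * (d * d) = (64 * d) * d := by ring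
        _ ≤ n * d := by gcongr
    omega
  have a2 : (e + 1) * (n * d) ≤ (2 * (e + 1)) * (n * d - 2 * (U.card * d) - 2 * (d * d)) := by
    calc (e + 1) * (n * d) ≤ (e + 1) * (2 * (n * d - 2 * (U.card * d) - 2 * (d * d))) := by gcongr
      _ = _ := by ring
  have a3 : ((e + 1) * (n * d)) * (2 * P) ≤ ((e + 1) * (n * d)) * Q := by
    calc ((e + 1) * (n * d)) * (2 * P)
        ≤ ((2 * (e + 1)) * (n * d - 2 * (U.card * d) - 2 * (d * d))) * (2 * P) := by gcongr
      _ = 2 * (((2 * (e + 1)) * (n * d - 2 * (U.card * d) - 2 * (d * d))) * P) := by ring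
      _ ≤ 2 * (((U.card * d) * (U.card * d)) * Q) := by gcongr
      _ = (2 * d * U.card ^ 2) * (d * Q) := by ring
      _ ≤ ((e + 1) * n) * (d * Q) := by gcongr
      _ = ((e + 1) * (n * d)) * Q := by ring
  have hpos : 0 < (e + 1) * (n * d) := by
    have : 0 < n := by omega
    have : 0 < d := by omega
    positivity
  exact Nat.le_of_mul_le_mul_left a3 hpos

/-- the number of ordered adjacent pairs is even -/
theorem E2_even (G : SimpleGraph (Fin n)) (U : Finset (Fin n)) : ∃ e, E2 G U = 2 * e := by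
  classical
  let H : SimpleGraph (Fin n) :=
    { Adj := fun x y => x ∈ U ∧ y ∈ U ∧ G.Adj x y
      symm := ⟨fun x y h => ⟨h.2.1, h.1, h.2.2.symm⟩⟩
      loopless := ⟨fun x h => G.loopless.irrefl x h.2.2⟩ }
  refine ⟨H.edgeFinset.card, ?_⟩
  rw [← H.sum_degrees_eq_twice_card_edges, E2_eq]
  unfold IN
  rw [Finset.card_filter, Fintype.sum_prod_type]
  refine Finset.sum_congr rfl fun a _ => ?_
  rw [← Finset.card_filter, ← SimpleGraph.card_neighborFinset_eq_degree]
  congr 1
  ext b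
  simp [H]

theorem E2_le (G : SimpleGraph (Fin n)) (U : Finset (Fin n)) : E2 G U ≤ n * n := by
  classical
  rw [E2_eq]
  refine (Finset.card_le_univ _).trans ?_
  simp

theorem cnt_mono (d : ℕ) (P Q : SimpleGraph (Fin n) → Prop) (h : ∀ G, P G → Q G) :
    cnt n d P ≤ cnt n d Q := by
  classical
  unfold cnt
  apply Finset.card_le_card
  intro G hG
  rw [Finset.mem_filter] at hG ⊢
  exact ⟨hG.1, h G hG.2⟩

theorem cnt_le_reg (d : ℕ) (P : SimpleGraph (Fin n) → Prop) : cnt n d P ≤ (reg n d).card := by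
  classical
  unfold cnt
  exact Finset.card_filter_le _ _

theorem cnt_zero (d : ℕ) (P : SimpleGraph (Fin n) → Prop) (h : ∀ G, ¬ P G) : cnt n d P = 0 := by
  classical
  unfold cnt
  rw [Finset.card_eq_zero, Finset.filter_eq_empty_iff]
  exact fun G _ => h G

theorem cnt_union {ι : Type} (d : ℕ) (S : Finset ι) (P : SimpleGraph (Fin n) → Prop)
    (Q : ι → SimpleGraph (Fin n) → Prop) (h : ∀ G, P G → ∃ i ∈ S, Q i G) :
    cnt n d P ≤ ∑ i ∈ S, cnt n d (Q i) := by
  classical
  unfold cnt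
  refine le_trans (Finset.card_le_card (t := S.biUnion fun i => (reg n d).filter (Q i)) ?_)
    Finset.card_biUnion_le
  intro G hG
  rw [Finset.mem_filter] at hG
  obtain ⟨i, hi, hQ⟩ := h G hG.2
  rw [Finset.mem_biUnion]
  exact ⟨i, hi, Finset.mem_filter.2 ⟨hG.1, hQ⟩⟩

/-- one set `U` -/
theorem one_set (hE : S_EUP) (d h t L : ℕ) (hd1 : 64 * d ≤ n) (hd2 : 64 ≤ d) (hh : 8 * h ≤ n)
    (ht : 64 * d * h + 256 * L * n ≤ t * n) (U : Finset (Fin n)) :
    2 ^ (8 * L * U.card) * cnt n d (fun G => U.card ≤ h ∧ t * U.card < 16 * E2 G U) ≤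
      2 * (reg n d).card := by
  classical
  by_cases hU : U.card ≤ h
  swap
  · rw [cnt_zero d _ (fun G hG => hU hG.1), mul_zero]
    exact Nat.zero_le _
  set u := U.card with hu
  set K := 8 * L * u with hK
  set e0 := t * u / 32 + 1 with he0
  have hn : 0 < n := by omega
  have h32 : t * u < 32 * e0 := by omega
  have h1 : 2 * d * h * u + K * n ≤ e0 * n := by
    have h2 : (64 * d * h + 256 * L * n) * u ≤ (t * n) * u := by gcongr
    have h3 : (t * u) * n ≤ (32 * e0) * n := by gcongr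
    have h4 : 32 * (2 * d * h * u + K * n) ≤ 32 * (e0 * n) := by
      calc 32 * (2 * d * h * u + K * n) = (64 * d * h + 256 * L * n) * u := by
            rw [hK]; ring
        _ ≤ (t * n) * u := h2
        _ = (t * u) * n := by ring
        _ ≤ (32 * e0) * n := h3
        _ = 32 * (e0 * n) := by ring
    omega
  have hKe : K ≤ e0 := by
    have : K * n ≤ e0 * n := by omega
    exact Nat.le_of_mul_le_mul_right this hn
  obtain ⟨e1, he1⟩ : ∃ e1, e0 = e1 + K := ⟨e0 - K, by omega⟩
  have h5 : 2 * d * u ^ 2 ≤ e1 * n := by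
    have h6 : 2 * d * u ^ 2 ≤ 2 * d * h * u := by
      calc 2 * d * u ^ 2 = 2 * d * u * u := by ring
        _ ≤ 2 * d * h * u := by gcongr
    have h7 : e0 * n = e1 * n + K * n := by rw [he1]; ring
    omega
  -- halving
  have halve : ∀ m, 2 ^ m * cnt n d (fun G => E2 G U = 2 * (e1 + m)) ≤ (reg n d).card := by
    intro m
    induction m with
    | zero => simpa using cnt_le_reg d _
    | succ m ih =>
      have h8 := hE n d (e1 + m) U hd1 hd2 (by omega) (by
        calc 2 * d * U.card ^ 2 ≤ e1 * n := h5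
          _ ≤ (e1 + m + 1) * n := by gcongr; omega)
      calc 2 ^ (m + 1) * cnt n d (fun G => E2 G U = 2 * (e1 + (m + 1)))
          = 2 ^ m * (2 * cnt n d (fun G => E2 G U = 2 * (e1 + m + 1))) := by
            rw [pow_succ]; ring_nf
        _ ≤ 2 ^ m * cnt n d (fun G => E2 G U = 2 * (e1 + m)) := by gcongr
        _ ≤ _ := ih
  have hun := cnt_union (n := n) d (Finset.range (n * n + 1))
    (fun G => u ≤ h ∧ t * u < 16 * E2 G U)
    (fun m G => E2 G U = 2 * (e1 + (K + m))) (by
      rintro G ⟨_, hG⟩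
      obtain ⟨e', he'⟩ := E2_even G U
      have h9 := E2_le G U
      have h10 : e0 ≤ e' := by omega
      refine ⟨e' - e0, Finset.mem_range.2 (by omega), ?_⟩
      omega)
  have hsum : ∀ j, 2 ^ (K + j) * (∑ m ∈ Finset.range j,
      cnt n d (fun G => E2 G U = 2 * (e1 + (K + m)))) + 2 * (reg n d).card ≤
      (reg n d).card * 2 ^ (j + 1) := by
    intro j
    induction j with
    | zero => simp; omega
    | succ j ih =>
      rw [Finset.sum_range_succ]
      have h11 := halve (K + j)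
      have h12 : 2 ^ (K + (j + 1)) * (∑ m ∈ Finset.range j,
          cnt n d (fun G => E2 G U = 2 * (e1 + (K + m))) +
            cnt n d (fun G => E2 G U = 2 * (e1 + (K + j)))) =
          2 * (2 ^ (K + j) * (∑ m ∈ Finset.range j,
            cnt n d (fun G => E2 G U = 2 * (e1 + (K + m))))) +
          2 * (2 ^ (K + j) * cnt n d (fun G => E2 G U = 2 * (e1 + (K + j)))) := by ring
      rw [h12]
      have h13 : (reg n d).card * 2 ^ (j + 1 + 1) = 2 * ((reg n d).card * 2 ^ (j + 1)) := by ring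
      rw [h13]
      omega
  have h14 := hsum (n * n + 1)
  have h15 : 2 ^ (n * n + 1) * (2 ^ K * (∑ m ∈ Finset.range (n * n + 1),
      cnt n d (fun G => E2 G U = 2 * (e1 + (K + m))))) ≤
      2 ^ (n * n + 1) * (2 * (reg n d).card) := by
    calc 2 ^ (n * n + 1) * (2 ^ K * (∑ m ∈ Finset.range (n * n + 1),
          cnt n d (fun G => E2 G U = 2 * (e1 + (K + m)))))
        = 2 ^ (K + (n * n + 1)) * (∑ m ∈ Finset.range (n * n + 1),
          cnt n d (fun G => E2 G U = 2 * (e1 + (K + m)))) := by ring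
      _ ≤ (reg n d).card * 2 ^ (n * n + 1 + 1) := by omega
      _ = 2 ^ (n * n + 1) * (2 * (reg n d).card) := by ring
  have h16 := Nat.le_of_mul_le_mul_left h15 (by positivity)
  calc 2 ^ K * cnt n d (fun G => u ≤ h ∧ t * u < 16 * E2 G U)
      ≤ 2 ^ K * (∑ m ∈ Finset.range (n * n + 1),
          cnt n d (fun G => E2 G U = 2 * (e1 + (K + m)))) := by gcongr
    _ ≤ _ := h16

/-- union bound over all nonempty sets -/
theorem union_sets (R n L : ℕ) (hL : 1 ≤ L) (hn : n ≤ 2 ^ L) (b : Finset (Fin n) → ℕ)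
    (hb : ∀ U, 2 ^ (8 * L * U.card) * b U ≤ 2 * R) :
    (∑ U ∈ (univ : Finset (Finset (Fin n))).filter (fun U => U ≠ ∅), b U) * n ^ 2 ≤ R := by
  classical
  set x : ℝ := ((2 : ℝ) ^ (8 * L))⁻¹ with hx
  have hx0 : 0 < x := by positivity
  have h1 : ∀ U : Finset (Fin n), (b U : ℝ) ≤ 2 * R * x ^ U.card := by
    intro U
    have h2 : ((2 ^ (8 * L * U.card) * b U : ℕ) : ℝ) ≤ ((2 * R : ℕ) : ℝ) := by
      exact_mod_cast hb U
    push_cast at h2
    have h3 : x ^ U.card * (2 : ℝ) ^ (8 * L * U.card) = 1 := by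
      rw [pow_mul (2 : ℝ) (8 * L) U.card, ← mul_pow, hx, inv_mul_cancel₀ (by positivity), one_pow]
    calc (b U : ℝ) = x ^ U.card * ((2 : ℝ) ^ (8 * L * U.card) * b U) := by
          rw [← mul_assoc, h3, one_mul]
      _ ≤ x ^ U.card * (2 * R) := by gcongr
      _ = 2 * R * x ^ U.card := by ring
  have h4 : ∑ U : Finset (Fin n), x ^ U.card = (1 + x) ^ n := by
    have h5 := Fintype.sum_pow_mul_eq_add_pow (Fin n) x 1
    simp only [one_pow, mul_one, Fintype.card_fin] at h5
    rw [h5, add_comm]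
  have h6 : ∑ U ∈ (univ : Finset (Finset (Fin n))).filter (fun U => U ≠ ∅), x ^ U.card =
      (1 + x) ^ n - 1 := by
    rw [← h4, ← Finset.sum_filter_add_sum_filter_not univ (fun U : Finset (Fin n) => U ≠ ∅)]
    have h7 : (univ : Finset (Finset (Fin n))).filter (fun U => ¬ U ≠ ∅) = {∅} := by
      ext U; simp
    rw [h7, Finset.sum_singleton, Finset.card_empty, pow_zero]
    ring
  have hnR : (n : ℝ) ≤ 2 ^ L := by exact_mod_cast hn
  have hxe : x * 2 ^ (8 * L) = 1 := by
    rw [hx]; exact inv_mul_cancel₀ (by positivity)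
  have hnx : (n : ℝ) * x ≤ 1 := by
    calc (n : ℝ) * x ≤ 2 ^ L * x := by gcongr
      _ ≤ 2 ^ (8 * L) * x := by
          gcongr
          · norm_num
          · omega
      _ = 1 := by rw [mul_comm]; exact hxe
  have h8 : (1 + x) ^ n - 1 ≤ 2 * (n * x) := by
    have h9 : (1 + x) ^ n ≤ Real.exp (n * x) := by
      calc (1 + x) ^ n ≤ (Real.exp x) ^ n := by
            gcongr
            have := Real.add_one_le_exp x
            linarith
        _ = Real.exp (n * x) := by rw [← Real.exp_nat_mul]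
    have h10 := Real.abs_exp_sub_one_le (x := (n : ℝ) * x) (by
      rw [abs_of_nonneg (by positivity)]; exact hnx)
    rw [abs_of_nonneg (a := (n : ℝ) * x) (by positivity)] at h10
    have h11 := le_abs_self (Real.exp (n * x) - 1)
    linarith
  have h12 : ((∑ U ∈ (univ : Finset (Finset (Fin n))).filter (fun U => U ≠ ∅), b U : ℕ) : ℝ) ≤
      2 * R * (2 * (n * x)) := by
    rw [Nat.cast_sum]
    calc ∑ U ∈ (univ : Finset (Finset (Fin n))).filter (fun U => U ≠ ∅), (b U : ℝ)
        ≤ ∑ U ∈ (univ : Finset (Finset (Fin n))).filter (fun U => U ≠ ∅),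
            2 * R * x ^ U.card := Finset.sum_le_sum fun U _ => h1 U
      _ = 2 * R * ((1 + x) ^ n - 1) := by rw [← Finset.mul_sum, h6]
      _ ≤ _ := by gcongr
  have h13 : 4 * (n : ℝ) ^ 3 * x ≤ 1 := by
    have h14 : 4 * (n : ℝ) ^ 3 ≤ 2 ^ (8 * L) := by
      calc 4 * (n : ℝ) ^ 3 ≤ 4 * (2 ^ L) ^ 3 := by gcongr
        _ = 2 ^ 2 * 2 ^ (3 * L) := by rw [← pow_mul, mul_comm L 3]; norm_num
        _ = 2 ^ (3 * L + 2) := by rw [← pow_add, add_comm]
        _ ≤ 2 ^ (8 * L) := by
            gcongr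
            · norm_num
            · omega
    calc 4 * (n : ℝ) ^ 3 * x ≤ 2 ^ (8 * L) * x := by gcongr
      _ = 1 := by rw [mul_comm]; exact hxe
  have h15 : (((∑ U ∈ (univ : Finset (Finset (Fin n))).filter (fun U => U ≠ ∅), b U) * n ^ 2 : ℕ) :
      ℝ) ≤ (R : ℝ) := by
    push_cast
    push_cast at h12
    have hR : (0 : ℝ) ≤ R := by positivity
    calc (∑ U ∈ (univ : Finset (Finset (Fin n))).filter (fun U => U ≠ ∅), (b U : ℝ)) * (n : ℝ) ^ 2
        ≤ (2 * R * (2 * (n * x))) * (n : ℝ) ^ 2 := by gcongr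
      _ = R * (4 * (n : ℝ) ^ 3 * x) := by ring
      _ ≤ R * 1 := by gcongr
      _ = R := mul_one _
  exact_mod_cast h15

theorem t_QDB (hE : S_EUP) : S_QDB := by
  classical
  intro n d h t L hn hL hd1 hd2 hh ht
  have h1 := cnt_union (n := n) d ((univ : Finset (Finset (Fin n))).filter (fun U => U ≠ ∅))
    (fun G => ¬ QD h t G) (fun U G => U.card ≤ h ∧ t * U.card < 16 * E2 G U) (by
      intro G hG
      unfold QD at hG
      push Not at hG
      obtain ⟨U, hU, hlt⟩ := hG
      refine ⟨U, Finset.mem_filter.2 ⟨Finset.mem_univ _, ?_⟩, hU, hlt⟩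
      rintro rfl
      have : E2 G ∅ = 0 := by simp [E2]
      rw [this] at hlt
      omega)
  have h2 := union_sets (reg n d).card n L hL hn
    (fun U => cnt n d (fun G => U.card ≤ h ∧ t * U.card < 16 * E2 G U))
    (fun U => one_set hE d h t L hd1 hd2 hh ht U)
  calc cnt n d (fun G => ¬ QD h t G) * n ^ 2 ≤ _ := Nat.mul_le_mul_right _ h1
    _ ≤ _ := h2

end Pool.Agent.K1H67.SQ
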